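import Pool.Agent.Helper8.FH.St

/-! # FH3a: counting transcendence degrees -/

set_option autoImplicit false

namespace Pool.Agent.Helper38.FH

open Pool.Agent.Helper8.FH

theorem trd_aux {F E κ : Type} [Field F] [Field E] [Algebra F E] [Finite κ] (u T : κ → E)
    (hT : AlgebraicIndependent F T)
    (hTu : ∀ i, T i ∈ IntermediateField.adjoin F (Set.range u)) (z : E)
    (hz : z ∈ IntermediateField.adjoin F (Set.range u)) :
    IsAlgebraic (Algebra.adjoin F (Set.range T)) z := by
  set L : IntermediateField F E := IntermediateField.adjoin F (Set.range u) with hL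
  have huL : ∀ i, u i ∈ L := fun i => IntermediateField.subset_adjoin F _ ⟨i, rfl⟩
  set u' : κ → L := fun i => ⟨u i, huL i⟩ with hu'
  set T' : κ → L := fun i => ⟨T i, hTu i⟩ with hT'
  -- `T'` is algebraically independent
  have h1 : AlgebraicIndependent F T' := by
    apply AlgebraicIndependent.of_comp L.val
    exact hT
  -- `L` is algebraic over the algebra generated by `u'`
  have htop : IntermediateField.adjoin F (Set.range u') = ⊤ := by
    apply IntermediateField.lift_injective L
    rw [IntermediateField.lift_adjoin, IntermediateField.lift_top]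
    have h9 : (Subtype.val '' Set.range u') = Set.range u := by
      rw [← Set.range_comp]
      rfl
    rw [h9]
  have h2 : Algebra.IsAlgebraic (Algebra.adjoin F (Set.range u')) L := by
    refine ⟨fun x => ?_⟩
    rw [← IntermediateField.isAlgebraic_adjoin_iff, htop]
    exact isAlgebraic_algebraMap (⟨x, IntermediateField.mem_top⟩ : (⊤ : IntermediateField F L))
  have h3 : Algebra.trdeg F L ≤ Cardinal.mk κ :=
    (Algebra.IsAlgebraic.trdeg_le_cardinalMk F (Set.range u')).trans Cardinal.mk_range_le
  have h4 := h1.isTranscendenceBasis_of_trdeg_le_of_finite h3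
  have h5 : Algebra.IsAlgebraic (Algebra.adjoin F (Set.range T')) L := h4.isAlgebraic
  have h6 : IsAlgebraic (Algebra.adjoin F (Set.range T')) (⟨z, hz⟩ : L) := h5.isAlgebraic _
  have hmap : ∀ x : L, x ∈ Algebra.adjoin F (Set.range T') →
      L.val x ∈ Algebra.adjoin F (Set.range T) := by
    intro x hx
    have h7 : L.val x ∈ (Algebra.adjoin F (Set.range T')).map L.val := ⟨x, hx, rfl⟩
    rw [AlgHom.map_adjoin] at h7
    have h8 : (L.val '' Set.range T') = Set.range T := by
      rw [← Set.range_comp]
      rfl
    rw [h8] at h7
    exact h7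
  let f : Algebra.adjoin F (Set.range T') →+* Algebra.adjoin F (Set.range T) :=
    ((L.val : L →+* E).comp
      ((Algebra.adjoin F (Set.range T')).val : Algebra.adjoin F (Set.range T') →+* L)).codRestrict
      (Algebra.adjoin F (Set.range T)) (fun x => hmap x.1 x.2)
  have hf : Function.Injective f := by
    intro x y hxy
    have h7 := congrArg Subtype.val hxy
    exact Subtype.ext (Subtype.ext h7)
  exact h6.ringHom_of_comp_eq f (L.val : L →+* E) hf (by ext x; rfl)

theorem st_trd : StTrd := by
  intro κ _ u T hT hTu z hz
  exact trd_aux u T hT hTu z hz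

end Pool.Agent.Helper38.FH
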